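import Pool.Agent.Helper66_D1.Stmts
import Pool.Agent.Helper36_PP.Spl
import Pool.Agent.Helper66_CY.Cyn

/-!
# Part D1: tools for the actions of elements of the group ring
-/

open scoped BigOperators

set_option linter.unusedSectionVars false

noncomputable section

namespace Pool.Agent.PP.D66

open Pool.Agent.PP Pool.Agent.Helper51_AWC Pool.Agent.Helper79_WRA

variable {F : Type} [Field F] {G : Type} [Group G] [Finite G] {V V' : Type} [AddCommGroup V]
  [Module F V] [AddCommGroup V'] [Module F V']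

theorem evV_apply [Fintype G] (ρ : Representation F G V) (a : G → F) (v : V) :
    evV ρ a v = ∑ g : G, a g • ρ g v := by
  unfold evV
  rw [finsum_eq_sum_of_fintype, LinearMap.sum_apply]
  rfl

theorem trW_apply [Fintype G] (c : G → F) (ρ : Representation F G V) (ρ' : Representation F G V')
    (φ : V →ₗ[F] V') (v : V) : trW c ρ ρ' φ v = ∑ g : G, c g • ρ' g (φ (ρ g⁻¹ v)) := by
  unfold trW
  rw [finsum_eq_sum_of_fintype, LinearMap.sum_apply]
  rfl

/-- the relative trace of an element of the group ring -/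
theorem evV_tr (ρ : Representation F G V) {a c z : G → F}
    (h : ∀ y, a y = ∑ᶠ g : G, c g * z (g⁻¹ * y * g)) : evV ρ a = trW c ρ ρ (evV ρ z) := by
  have := Fintype.ofFinite G
  apply LinearMap.ext
  intro v
  rw [evV_apply, trW_apply]
  have h1 : ∀ g : G, c g • ρ g (evV ρ z (ρ g⁻¹ v)) =
      ∑ y : G, (c g * z (g⁻¹ * y * g)) • ρ y v := by
    intro g
    rw [evV_apply, map_sum, Finset.smul_sum]
    refine Fintype.sum_equiv (MulAut.conj g).toEquiv _ _ fun y => ?_
    have h2 : g⁻¹ * ((MulAut.conj g).toEquiv y) * g = y := by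
      change g⁻¹ * (g * y * g⁻¹) * g = y
      group
    have h3 : ρ ((MulAut.conj g).toEquiv y) v = ρ g (ρ y (ρ g⁻¹ v)) := by
      change ρ (g * y * g⁻¹) v = _
      rw [map_mul, map_mul]
      rfl
    rw [h2, h3, map_smul, smul_smul]
  rw [Finset.sum_congr rfl fun g _ => h1 g, Finset.sum_comm]
  refine Finset.sum_congr rfl fun y _ => ?_
  rw [h, finsum_eq_sum_of_fintype, Finset.sum_smul]

/-- the action of an element of the group ring preserves stable subspaces -/
theorem evV_mem {N : Subgroup G} {ρ : Representation F G V} {W : Submodule F V} (hW : Stb N ρ W)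
    {a : G → F} (ha : ∀ x, x ∉ N → a x = 0) {v : V} (hv : v ∈ W) : evV ρ a v ∈ W := by
  have := Fintype.ofFinite G
  rw [evV_apply]
  refine Submodule.sum_mem _ fun g _ => ?_
  by_cases hg : g ∈ N
  · exact W.smul_mem _ (hW g hg v hv)
  · rw [ha g hg, zero_smul]
    exact zero_mem _

theorem fix_stb {P : Subgroup G} (ρ : Representation F G V) {g : G}
    (hg : g ∈ Subgroup.normalizer (P : Set G)) {v : V} (hv : v ∈ fixV ρ P) : ρ g v ∈ fixV ρ P := by
  intro p hp
  have h1 : g⁻¹ * p * g ∈ P := by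
    have := (Subgroup.mem_normalizer_iff.1 (inv_mem hg) p).1 hp
    rwa [inv_inv] at this
  have h2 : p * g = g * (g⁻¹ * p * g) := by group
  rw [← Module.End.mul_apply, ← map_mul, h2, map_mul, Module.End.mul_apply, hv _ h1]

theorem stb_fix {P N : Subgroup G} (ρ : Representation F G V)
    (hN : N ≤ Subgroup.normalizer (P : Set G)) : Stb N ρ (fixV ρ P) :=
  fun _ hn _ hv => fix_stb ρ (hN hn) hv

theorem stb_nrm {P N : Subgroup G} (ρ : Representation F G V)
    (hN : N ≤ Subgroup.normalizer (P : Set G)) : Stb N ρ (nrmV ρ P) :=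
  fun _ hn _ hv => CY66.nrm_stable ρ (hN hn) hv

/-- the norm is contained in the fixed points -/
theorem nrm_le_fix (ρ : Representation F G V) (P : Subgroup G) : nrmV ρ P ≤ fixV ρ P := by
  have := Fintype.ofFinite P
  rintro _ ⟨w, rfl⟩ p hp
  rw [finsum_eq_sum_of_fintype, LinearMap.sum_apply, map_sum]
  refine Fintype.sum_equiv (Equiv.mulLeft (⟨p, hp⟩ : P)) _ _ fun q => ?_
  change ρ p (ρ q w) = ρ (p * q) w
  rw [map_mul]
  rfl

/-- the support of `br P b` -/
theorem br_supp {N P : Subgroup G} {b : G → F} (hb : ∀ x, x ∉ N → b x = 0) :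
    ∀ x, x ∉ N ⊓ Subgroup.normalizer (P : Set G) → br P b x = 0 := by
  classical
  intro x hx
  unfold br
  split_ifs with h
  · apply hb
    intro hN
    apply hx
    refine ⟨hN, Subgroup.mem_normalizer_iff.2 ?_⟩
    intro y
    constructor
    · intro hy
      have h1 := Subgroup.mem_centralizer_iff.1 h y hy
      rw [← h1, mul_inv_cancel_right]
      exact hy
    · intro hy
      have h1 := Subgroup.mem_centralizer_iff.1 h _ hy
      have h2 : x * y * x⁻¹ = y := by
        have h3 : x * y = x * (x * y * x⁻¹) := by rw [← h1]; group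
        exact (mul_left_cancel h3).symm
      rwa [h2] at hy
  · rfl

/-- `br_P b` acts as the identity on the fixed points modulo the norm -/
theorem br_fix (hebv : EbvStmt) {ℓ : ℕ} [Fact ℓ.Prime] {N P : Subgroup G} {b : G → F}
    (hD : D1S ℓ N P b) (ρ : Representation F G V) (hb : ∀ v, evV ρ b v = v) {v : V}
    (hv : v ∈ fixV ρ P) : v - evV ρ (br P b) v ∈ nrmV ρ P := by
  have h1 := hebv ℓ F G P hD.card V ρ b (fun p _ x => hD.idem.1 x p) v hv
  rwa [hb] at h1

/-- `br_P b` acts as the identity on stable subspaces of the fixed points which meet the norm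
trivially -/
theorem br_T (hebv : EbvStmt) {ℓ : ℕ} [Fact ℓ.Prime] {N P : Subgroup G} {b : G → F}
    (hD : D1S ℓ N P b) (ρ : Representation F G V) (hb : ∀ v, evV ρ b v = v) {T : Submodule F V}
    (hT : T ≤ fixV ρ P) (hTn : T ⊓ nrmV ρ P = ⊥)
    (hTs : Stb (N ⊓ Subgroup.normalizer (P : Set G)) ρ T) {v : V} (hv : v ∈ T) :
    evV ρ (br P b) v = v := by
  have h1 := br_fix hebv hD ρ hb (hT hv)
  have h2 : evV ρ (br P b) v ∈ T := evV_mem hTs (br_supp hD.supp) hv
  have h3 : v - evV ρ (br P b) v ∈ T ⊓ nrmV ρ P := ⟨sub_mem hv h2, h1⟩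
  rw [hTn, Submodule.mem_bot, sub_eq_zero] at h3
  exact h3.symm

/-- a generator of the group `P` of prime order -/
theorem gen {ℓ : ℕ} [Fact ℓ.Prime] {P : Subgroup G} (hP : Nat.card P = ℓ) :
    ∃ y : G, Subgroup.zpowers y = P := by
  have hc : IsCyclic P := isCyclic_of_prime_card hP
  obtain ⟨y, hy⟩ := hc.exists_generator
  refine ⟨y, ?_⟩
  apply le_antisymm
  · rw [Subgroup.zpowers_le]
    exact y.2
  · intro x hx
    obtain ⟨k, hk⟩ := Subgroup.mem_zpowers_iff.1 (hy ⟨x, hx⟩)
    rw [Subgroup.mem_zpowers_iff]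
    refine ⟨k, ?_⟩
    have := congrArg Subtype.val hk
    simpa using this

theorem isP {ℓ : ℕ} [Fact ℓ.Prime] {P : Subgroup G} (hP : Nat.card P = ℓ) : IsPGroup ℓ P :=
  IsPGroup.of_card (n := 1) (by rw [hP, pow_one])

/-- the fixed points are the kernel of `y - 1` -/
theorem mem_fix {P : Subgroup G} {y : G} (hy : Subgroup.zpowers y = P) (ρ : Representation F G V)
    {v : V} : v ∈ fixV ρ P ↔ (ρ y - 1) v = 0 := by
  rw [LinearMap.sub_apply, sub_eq_zero]
  constructor
  · intro h
    exact h y (hy ▸ Subgroup.mem_zpowers y)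
  · intro h p hp
    rw [← hy, ← mem_powers_iff_mem_zpowers] at hp
    obtain ⟨n, rfl⟩ := hp
    change ρ (y ^ n) v = v
    rw [map_pow]
    induction n with
    | zero => rfl
    | succ n ih => rw [pow_succ, Module.End.mul_apply, h]; exact ih

end Pool.Agent.PP.D66
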