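import Pool.Agent.Helper66_D1.Tool

/-!
# Part D1, module LFT: lifting of a simple submodule
-/

open scoped BigOperators

noncomputable section

namespace Pool.Agent.PP.D66

open Pool.Agent.PP Pool.Agent.Helper51_AWC Pool.Agent.Helper79_WRA

/-- a minimal stable subspace between two stable subspaces -/
theorem exists_min {F : Type} [Field F] {G : Type} [Group G] {V : Type} [AddCommGroup V]
    [Module F V] [FiniteDimensional F V] (N : Subgroup G) (ρ : Representation F G V)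
    {A Y : Submodule F V} (hY : Stb N ρ Y) (h : A < Y) :
    ∃ U : Submodule F V, Stb N ρ U ∧ A < U ∧ U ≤ Y ∧
      ∀ W : Submodule F V, Stb N ρ W → A < W → W ≤ U → W = U := by
  classical
  have hex : ∃ d : ℕ, ∃ U : Submodule F V, Stb N ρ U ∧ A < U ∧ U ≤ Y ∧ Module.finrank F U = d :=
    ⟨_, Y, hY, h, le_rfl, rfl⟩
  obtain ⟨U, h1, h2, h3, h4⟩ := Nat.find_spec hex
  refine ⟨U, h1, h2, h3, fun W hW hAW hWU => ?_⟩
  by_contra hne
  have h5 : Module.finrank F W < Module.finrank F U :=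
    Submodule.finrank_lt_finrank_of_lt (lt_of_le_of_ne hWU hne)
  rw [h4] at h5
  exact Nat.find_min hex h5 ⟨W, hW, hAW, hWU.trans h3, rfl⟩

theorem lft (hebv : EbvStmt) : LftdStmt := by
  intro ℓ _ F _ hF G _ _ N P b hD V _ _ _ ρ hb Y hY hYf hYs
  classical
  have := Fintype.ofFinite G
  obtain ⟨c₁, z₁, hc₁, hz1, hz2, hz3⟩ := hD.prj1
  set N₁ := N ⊓ Subgroup.normalizer (P : Set G) with hN₁
  have hN₁n : N₁ ≤ Subgroup.normalizer (P : Set G) := inf_le_right
  have hPN₁ : P ≤ N₁ := le_inf hD.le Subgroup.le_normalizer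
  obtain ⟨U, hU1, hU2, hU3, hU4⟩ := exists_min N₁ ρ hYs hY
  -- the projection along the norm
  obtain ⟨p₀, hp1, hp2⟩ : ∃ p₀ : V →ₗ[F] V, (∀ v ∈ nrmV ρ P, p₀ v = 0) ∧
      ∀ v, p₀ v - v ∈ nrmV ρ P := by
    obtain ⟨s, hs⟩ := (nrmV ρ P).mkQ.exists_rightInverse_of_surjective (Submodule.range_mkQ _)
    refine ⟨s ∘ₗ (nrmV ρ P).mkQ, fun v hv => ?_, fun v => ?_⟩
    · have h1 : (nrmV ρ P).mkQ v = 0 := (Submodule.Quotient.mk_eq_zero _).2 hv
      rw [LinearMap.comp_apply, h1, map_zero]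
    · rw [← Submodule.Quotient.mk_eq_zero (nrmV ρ P)]
      have h1 := LinearMap.congr_fun hs ((nrmV ρ P).mkQ v)
      rw [LinearMap.comp_apply, LinearMap.id_apply] at h1
      change (nrmV ρ P).mkQ (s ((nrmV ρ P).mkQ v) - v) = 0
      rw [map_sub, h1, sub_self]
  set ζ : V →ₗ[F] V := evV ρ z₁ with hζ
  have hζf : ∀ v ∈ fixV ρ P, ζ v ∈ fixV ρ P := fun v hv => evV_mem (stb_fix ρ hN₁n) hz1 hv
  have hζn : ∀ v ∈ nrmV ρ P, ζ v ∈ nrmV ρ P := fun v hv => evV_mem (stb_nrm ρ hN₁n) hz1 hv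
  have hpf : ∀ v ∈ fixV ρ P, p₀ v ∈ fixV ρ P := by
    intro v hv
    have h1 := add_mem (nrm_le_fix ρ P (hp2 v)) hv
    rwa [sub_add_cancel] at h1
  set s : V →ₗ[F] V := trW c₁ ρ ρ (p₀ ∘ₗ ζ) with hs
  have hs_apply : ∀ v, s v = ∑ g : G, c₁ g • ρ g (p₀ (ζ (ρ g⁻¹ v))) := by
    intro v
    rw [hs, trW_apply]
    rfl
  -- `s` on the norm
  have hsn : ∀ v ∈ nrmV ρ P, s v = 0 := by
    intro v hv
    rw [hs_apply]
    refine Finset.sum_eq_zero fun g _ => ?_
    by_cases hg : g ∈ N₁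
    · rw [hp1 _ (hζn _ (stb_nrm ρ hN₁n _ (inv_mem hg) _ hv)), map_zero, smul_zero]
    · rw [hc₁.supp g hg, zero_smul]
  -- `s` modulo the norm
  have hsm : ∀ v ∈ fixV ρ P, s v - v ∈ nrmV ρ P := by
    intro v hv
    have h1 := br_fix hebv hD ρ hb hv
    rw [evV_tr ρ hz3, trW_apply] at h1
    have h2 : s v - ∑ g : G, c₁ g • ρ g (ζ (ρ g⁻¹ v)) ∈ nrmV ρ P := by
      rw [hs_apply, ← Finset.sum_sub_distrib]
      refine Submodule.sum_mem _ fun g _ => ?_
      by_cases hg : g ∈ N₁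
      · rw [← smul_sub, ← map_sub]
        exact Submodule.smul_mem _ _ (stb_nrm ρ hN₁n g hg _ (hp2 _))
      · rw [hc₁.supp g hg, zero_smul, zero_smul, sub_zero]
        exact zero_mem _
    have h3 := sub_mem h2 h1
    have h4 : s v - ∑ g : G, c₁ g • ρ g (ζ (ρ g⁻¹ v)) -
        (v - ∑ g : G, c₁ g • ρ g (evV ρ z₁ (ρ g⁻¹ v))) = s v - v := by
      rw [hζ]
      abel
    rwa [h4] at h3
  have hsf : ∀ v ∈ fixV ρ P, s v ∈ fixV ρ P := by
    intro v hv
    have h1 := add_mem (nrm_le_fix ρ P (hsm v hv)) hv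
    rwa [sub_add_cancel] at h1
  have hss : ∀ v ∈ fixV ρ P, s (s v) = s v := by
    intro v hv
    have h1 := hsn _ (hsm v hv)
    rwa [map_sub, sub_eq_zero] at h1
  -- `s` commutes with `N₁` on the fixed points
  have hscom : ∀ n ∈ N₁, ∀ v ∈ fixV ρ P, s (ρ n v) = ρ n (s v) := by
    have hst : ∀ n ∈ N₁, ∀ v ∈ fixV ρ P, ρ n v ∈ fixV ρ P := fun n hn v hv =>
      stb_fix ρ hN₁n n hn v hv
    -- weights
    have hw1 : ∀ (h : G → V), (∀ g, g ∉ N₁ → h g = 0) → (∀ g, ∀ p ∈ P, h (g * p) = h g) →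
        ∀ c c' : G → F, IsW N₁ P c → IsW N₁ P c' → ∑ g, c g • h g = ∑ g, c' g • h g := by
      intro h h0 hh c c' hc hc'
      have := Fintype.ofFinite P
      have e1 : ∀ g, c g • h g = ∑ p : P, c g • c' (g * p) • h (g * p) := by
        intro g
        by_cases hg : g ∈ N₁
        · have h2 := hc'.sum g hg
          rw [finsum_eq_sum_of_fintype] at h2
          rw [← Finset.smul_sum]
          congr 1
          rw [Finset.sum_congr rfl fun (p : P) _ => by rw [hh g p p.2], ← Finset.sum_smul, h2,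
            one_smul]
        · rw [hc.supp g hg, zero_smul]
          symm
          exact Finset.sum_eq_zero fun p _ => by rw [zero_smul]
      rw [Finset.sum_congr rfl fun g _ => e1 g, Finset.sum_comm]
      have e2 : ∀ p : P, ∑ g : G, c g • c' (g * p) • h (g * p) =
          ∑ g : G, c (g * (p : G)⁻¹) • c' g • h g := by
        intro p
        refine Fintype.sum_equiv (Equiv.mulRight (p : G)) _ _ fun g => ?_
        change c g • c' (g * p) • h (g * p) = c (g * p * (p : G)⁻¹) • c' (g * p) • h (g * p)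
        rw [mul_inv_cancel_right]
      rw [Finset.sum_congr rfl fun p _ => e2 p, Finset.sum_comm]
      refine Finset.sum_congr rfl fun g _ => ?_
      by_cases hg : g ∈ N₁
      · have h2 := hc.sum g hg
        rw [finsum_eq_sum_of_fintype] at h2
        rw [← Finset.sum_smul]
        have h3 : ∑ p : P, c (g * (p : G)⁻¹) = 1 := by
          rw [← h2]
          exact Fintype.sum_equiv (Equiv.inv P) _ _ fun p => rfl
        rw [h3, one_smul]
      · simp only [h0 g hg, smul_zero, Finset.sum_const_zero]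
    intro n hn v hv
    let h : G → V := fun g => if g ∈ N₁ then ρ g (p₀ (ζ (ρ g⁻¹ (ρ n v)))) else 0
    have hh0 : ∀ g, g ∉ N₁ → h g = 0 := fun g hg => if_neg hg
    have hhp : ∀ g, ∀ p ∈ P, h (g * p) = h g := by
      intro g p hp
      change (if g * p ∈ N₁ then _ else _) = (if g ∈ N₁ then _ else _)
      by_cases hg : g ∈ N₁
      · rw [if_pos hg, if_pos (mul_mem hg (hPN₁ hp))]
        have e1 : ρ g⁻¹ (ρ n v) ∈ fixV ρ P := hst _ (inv_mem hg) _ (hst n hn v hv)
        rw [mul_inv_rev, map_mul, map_mul, Module.End.mul_apply, Module.End.mul_apply,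
          e1 _ (inv_mem hp), hpf _ (hζf _ e1) _ hp]
      · rw [if_neg hg, if_neg]
        intro h1
        exact hg ((Subgroup.mul_mem_cancel_right N₁ (hPN₁ hp)).1 h1)
    have hc2 : IsW N₁ P (fun g => c₁ (n⁻¹ * g)) := by
      refine ⟨fun g hg => hc₁.supp _ fun h1 => hg ?_, fun g hg => ?_⟩
      · have h2 := mul_mem hn h1
        rwa [mul_inv_cancel_left] at h2
      · have h1 := hc₁.sum (n⁻¹ * g) (mul_mem (inv_mem hn) hg)
        rw [← h1]
        refine finsum_congr fun p => ?_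
        change c₁ (n⁻¹ * (g * (p : G))) = c₁ (n⁻¹ * g * p)
        rw [mul_assoc]
    have e1 := hw1 h hh0 hhp c₁ _ hc₁ hc2
    have e2 : s (ρ n v) = ∑ g, c₁ g • h g := by
      rw [hs_apply]
      refine Finset.sum_congr rfl fun g _ => ?_
      by_cases hg : g ∈ N₁
      · change _ = c₁ g • (if g ∈ N₁ then _ else _)
        rw [if_pos hg]
      · rw [hc₁.supp g hg, zero_smul, zero_smul]
    rw [e2, e1, hs_apply, map_sum]
    symm
    refine Fintype.sum_equiv (Equiv.mulLeft n) _ _ fun g => ?_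
    change ρ n (c₁ g • ρ g (p₀ (ζ (ρ g⁻¹ v)))) = c₁ (n⁻¹ * (n * g)) • h (n * g)
    rw [inv_mul_cancel_left, map_smul]
    by_cases hg : g ∈ N₁
    · change _ = c₁ g • (if n * g ∈ N₁ then _ else _)
      rw [if_pos (mul_mem hn hg), mul_inv_rev, ← Module.End.mul_apply (ρ (g⁻¹ * n⁻¹)) (ρ n) v,
        ← map_mul, inv_mul_cancel_right, map_mul ρ n g, Module.End.mul_apply]
    · rw [hc₁.supp g hg, zero_smul, zero_smul]
  -- the submodule
  have hUf : U ≤ fixV ρ P := hU3.trans hYf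
  have hTU : U.map s ≤ U := by
    rintro _ ⟨v, hv, rfl⟩
    have h1 := add_mem (hU2.le (hsm v (hUf hv))) hv
    rwa [sub_add_cancel] at h1
  have hTn : U.map s ⊓ nrmV ρ P = ⊥ := by
    rw [eq_bot_iff]
    rintro _ ⟨⟨v, hv, rfl⟩, h2⟩
    rw [Submodule.mem_bot, ← hss v (hUf hv)]
    exact hsn _ h2
  refine ⟨U.map s, fun h0 => ?_, hTU.trans hU3, hTn, ?_, ?_⟩
  · refine hU2.not_ge fun v hv => ?_
    have h1 : s v ∈ U.map s := ⟨v, hv, rfl⟩
    rw [h0, Submodule.mem_bot] at h1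
    have h2 := hsm v (hUf hv)
    rw [h1, zero_sub] at h2
    exact neg_mem_iff.1 h2
  · rintro n hn _ ⟨v, hv, rfl⟩
    rw [← hscom n hn v (hUf hv)]
    exact ⟨_, hU1 n hn v hv, rfl⟩
  · intro T' hT's hT'
    by_cases h0 : T' = ⊥
    · exact Or.inl h0
    right
    apply le_antisymm hT'
    have h1 : Stb N₁ ρ (nrmV ρ P ⊔ T') := by
      intro n hn v hv
      obtain ⟨a, ha, t, ht, rfl⟩ := Submodule.mem_sup.1 hv
      rw [map_add]
      exact Submodule.add_mem_sup (stb_nrm ρ hN₁n n hn a ha) (hT's n hn t ht)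
    have h2 : nrmV ρ P < nrmV ρ P ⊔ T' := by
      refine lt_of_le_of_ne le_sup_left fun h3 => h0 ?_
      rw [eq_bot_iff, ← hTn]
      exact le_inf hT' (by rw [h3]; exact le_sup_right)
    have h3 := hU4 _ h1 h2 (sup_le hU2.le (hT'.trans hTU))
    rintro _ ⟨v, hv, rfl⟩
    rw [← h3] at hv
    obtain ⟨a, ha, t, ht, rfl⟩ := Submodule.mem_sup.1 hv
    obtain ⟨u, hu, rfl⟩ := hT' ht
    rw [map_add, hsn a ha, zero_add, hss u (hUf hu)]
    exact ht

end Pool.Agent.PP.D66
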