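import Pool.Agent.Helper66_D1.Tool

/-!
# Part D1, module SPD: the endomorphism for `N ∩ N_G(P)`
-/

open scoped BigOperators

noncomputable section

namespace Pool.Agent.PP.D66

open Pool.Agent.PP Pool.Agent.Helper51_AWC Pool.Agent.Helper79_WRA

section ring

variable {R : Type} [Ring R]

/-- `∑_(i < n) X^i A X^(n-1-i)` -/
def tsm (X A : R) : ℕ → R
  | 0 => 0
  | n + 1 => tsm X A n * X + X ^ n * A

theorem tsm_comm (X A : R) (n : ℕ) : X * tsm X A n + A * X ^ n = tsm X A n * X + X ^ n * A := by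
  induction n with
  | zero => simp [tsm]
  | succ n ih =>
    have h1 : A * X ^ (n + 1) = A * X ^ n * X := by rw [pow_succ, mul_assoc]
    have h2 : X ^ (n + 1) * A = X * (X ^ n * A) := by rw [pow_succ', mul_assoc]
    have h3 : tsm X A (n + 1) = tsm X A n * X + X ^ n * A := rfl
    calc X * tsm X A (n + 1) + A * X ^ (n + 1)
        = (X * tsm X A n + A * X ^ n) * X + X * (X ^ n * A) := by
          rw [h3, h1, mul_add, add_mul, ← mul_assoc X (tsm X A n) X]
          abel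
      _ = tsm X A (n + 1) * X + X ^ (n + 1) * A := by rw [ih, h3, h2]

end ring

variable {F : Type} [Field F] {G : Type} [Group G] [Finite G]

theorem spd (hebv : EbvStmt) : SpdStmt := by
  intro ℓ _ F _ hF G _ _ N P b hD V _ _ _ ρ hb T hTfix hTn hTst hTmin
  classical
  have hch := hF.char
  have := Fintype.ofFinite G
  obtain ⟨y, hy⟩ := gen hD.card
  obtain ⟨c₁, z₁, hc₁, hz1, hz2, hz3⟩ := hD.prj1
  by_cases hT0 : T = ⊥
  · refine ⟨0, c₁, fun n _ v => ?_, hc₁, fun v _ => ?_, fun t ht => ?_⟩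
    · simp
    · rw [trW_apply]
      simp
    · rw [hT0, Submodule.mem_bot] at ht
      rw [ht, map_zero]
  -- the operator `X`
  set X : Module.End F V := ρ y - 1 with hX
  have hnrm : nrmV ρ P = LinearMap.range (X ^ (ℓ - 1)) := by
    unfold nrmV
    rw [H36.nrm_eq (isP hD.card) y hy ρ, hD.card]
  have hXst : ∀ (k : ℕ) (g : G), g ∈ Subgroup.normalizer (P : Set G) →
      ∀ v ∈ LinearMap.range (X ^ k), ρ g v ∈ LinearMap.range (X ^ k) := by
    intro k g hg v hv
    have h1 : g * y * g⁻¹ ∈ P :=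
      (Subgroup.mem_normalizer_iff.1 hg y).1 (hy ▸ Subgroup.mem_zpowers y)
    rw [← hy, ← mem_powers_iff_mem_zpowers] at h1
    obtain ⟨a, ha⟩ := h1
    exact H36.range_stable y g a ha.symm ρ k v hv
  -- the level of `T`
  have hex : ∃ k : ℕ, T ⊓ LinearMap.range (X ^ k) = ⊥ := ⟨ℓ - 1, by rw [← hnrm]; exact hTn⟩
  obtain ⟨s, hs⟩ : ∃ s, Nat.find hex = s + 1 := by
    apply Nat.exists_eq_succ_of_ne_zero
    intro h0
    have h1 := Nat.find_spec hex
    rw [h0, pow_zero] at h1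
    apply hT0
    rw [← h1]
    have h2 : LinearMap.range (1 : Module.End F V) = ⊤ := LinearMap.range_id
    rw [h2, inf_top_eq]
  have hdis : T ⊓ LinearMap.range (X ^ (s + 1)) = ⊥ := by
    have h1 := Nat.find_spec hex
    rwa [hs] at h1
  have hTs : T ≤ LinearMap.range (X ^ s) := by
    have h1 : T ⊓ LinearMap.range (X ^ s) ≠ ⊥ := Nat.find_min hex (by omega)
    have h2 : Stb (N ⊓ Subgroup.normalizer (P : Set G)) ρ (T ⊓ LinearMap.range (X ^ s)) :=
      fun g hg v hv => ⟨hTst g hg v hv.1, hXst s g hg.2 v hv.2⟩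
    rcases hTmin _ h2 inf_le_left with h3 | h3
    · exact absurd h3 h1
    · rw [← h3]
      exact inf_le_right
  -- the projection
  obtain ⟨φ', hφT, hφX, hφr⟩ : ∃ φ' : V →ₗ[F] V, (∀ t ∈ T, φ' t = t) ∧
      (∀ v, φ' ((X ^ (s + 1)) v) = 0) ∧ ∀ v, φ' v ∈ T := by
    set q := (LinearMap.range (X ^ (s + 1))).mkQ with hq
    have hinj : LinearMap.ker (q ∘ₗ T.subtype) = ⊥ := by
      rw [LinearMap.ker_eq_bot']
      intro t ht
      rw [LinearMap.comp_apply, hq, Submodule.mkQ_apply, Submodule.Quotient.mk_eq_zero] at ht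
      have h1 : (t : V) ∈ T ⊓ LinearMap.range (X ^ (s + 1)) := ⟨t.2, ht⟩
      rw [hdis, Submodule.mem_bot] at h1
      exact Subtype.ext h1
    obtain ⟨g, hg⟩ := LinearMap.exists_leftInverse_of_injective _ hinj
    refine ⟨T.subtype ∘ₗ g ∘ₗ q, fun t ht => ?_, fun v => ?_, fun v => (g (q v)).2⟩
    · have h1 := LinearMap.congr_fun hg ⟨t, ht⟩
      exact congrArg Subtype.val h1
    · have h1 : q ((X ^ (s + 1)) v) = 0 := by
        rw [hq, Submodule.mkQ_apply, Submodule.Quotient.mk_eq_zero]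
        exact ⟨v, rfl⟩
      rw [LinearMap.comp_apply, LinearMap.comp_apply, h1, map_zero, map_zero]
  -- the section
  obtain ⟨τ, hτ⟩ : ∃ τ : V →ₗ[F] V, ∀ t ∈ T, (X ^ s) (τ t) = t := by
    obtain ⟨u, hu⟩ := (X ^ s : V →ₗ[F] V).rangeRestrict.exists_rightInverse_of_surjective
      (LinearMap.range_rangeRestrict _)
    obtain ⟨τ, hτ⟩ := u.exists_extend
    refine ⟨τ, fun t ht => ?_⟩
    have h1 : τ t = u ⟨t, hTs ht⟩ := by
      rw [← hτ]
      rfl
    have h2 := congrArg Subtype.val (LinearMap.congr_fun hu ⟨t, hTs ht⟩)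
    rw [h1]
    exact h2
  set ζ : V →ₗ[F] V := evV ρ z₁ with hζ
  have hζT : ∀ t ∈ T, ζ t ∈ T := fun t ht => evV_mem hTst hz1 ht
  set A : Module.End F V := τ ∘ₗ ζ ∘ₗ φ' with hA
  have hA1 : A * X ^ (s + 1) = 0 := by
    apply LinearMap.ext
    intro v
    rw [Module.End.mul_apply, hA, LinearMap.comp_apply, LinearMap.comp_apply, hφX, map_zero,
      map_zero]
    rfl
  have hXT : ∀ t ∈ T, X t = 0 := fun t ht => (mem_fix hy ρ).1 (hTfix ht)
  have hA2 : X ^ (s + 1) * A = 0 := by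
    apply LinearMap.ext
    intro v
    rw [pow_succ', mul_assoc, Module.End.mul_apply, Module.End.mul_apply, hA, LinearMap.comp_apply,
      LinearMap.comp_apply, hτ _ (hζT _ (hφr v)), hXT _ (hζT _ (hφr v))]
    rfl
  set g₀ : Module.End F V := tsm X A (s + 1) with hg₀
  have hcom : Commute g₀ X := by
    have h1 := tsm_comm X A (s + 1)
    rw [hA1, hA2, add_zero, add_zero] at h1
    exact h1.symm
  have hcomy : Commute g₀ (ρ y) := by
    have h1 : ρ y = X + 1 := by rw [hX, sub_add_cancel]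
    rw [h1]
    exact hcom.add_right (Commute.one_right _)
  have hgP : HomOn P ρ ρ g₀ := by
    intro p hp v
    rw [← hy, ← mem_powers_iff_mem_zpowers] at hp
    obtain ⟨n, rfl⟩ := hp
    change g₀ (ρ (y ^ n) v) = ρ (y ^ n) (g₀ v)
    rw [map_pow]
    exact LinearMap.congr_fun (hcomy.pow_right n).eq v
  have hgfix : ∀ v ∈ fixV ρ P, g₀ v = ζ (φ' v) := by
    intro v hv
    have h1 : X v = 0 := (mem_fix hy ρ).1 hv
    have h2 : tsm X A (s + 1) = tsm X A s * X + X ^ s * A := rfl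
    rw [hg₀, h2, LinearMap.add_apply, Module.End.mul_apply, h1, map_zero, zero_add,
      Module.End.mul_apply, hA, LinearMap.comp_apply, LinearMap.comp_apply,
      hτ _ (hζT _ (hφr v))]
  have hstep : ∀ v ∈ fixV ρ P, ∀ g : G, c₁ g • ρ g (g₀ (ρ g⁻¹ v)) =
      c₁ g • ρ g (ζ (φ' (ρ g⁻¹ v))) := by
    intro v hv g
    by_cases hg : g ∈ N ⊓ Subgroup.normalizer (P : Set G)
    · rw [hgfix _ (fix_stb ρ (inv_mem hg.2) hv)]
    · rw [hc₁.supp g hg, zero_smul, zero_smul]
  refine ⟨g₀, c₁, hgP, hc₁, fun v hv => ?_, fun t ht => ?_⟩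
  · rw [trW_apply, Finset.sum_congr rfl fun g _ => hstep v hv g]
    refine Submodule.sum_mem _ fun g _ => ?_
    by_cases hg : g ∈ N ⊓ Subgroup.normalizer (P : Set G)
    · exact T.smul_mem _ (hTst g hg _ (hζT _ (hφr _)))
    · rw [hc₁.supp g hg, zero_smul]
      exact zero_mem _
  · rw [trW_apply, Finset.sum_congr rfl fun g _ => hstep t (hTfix ht) g]
    have h1 := br_T hebv hD ρ hb hTfix hTn hTst ht
    rw [evV_tr ρ hz3, trW_apply] at h1
    refine Eq.trans (Finset.sum_congr rfl fun g _ => ?_) h1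
    by_cases hg : g ∈ N ⊓ Subgroup.normalizer (P : Set G)
    · rw [hφT _ (hTst _ (inv_mem hg) _ ht)]
    · rw [hc₁.supp g hg, zero_smul, zero_smul]

end Pool.Agent.PP.D66
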