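import Pool.Agent.Helper27_D1.Fd1
import Pool.Agent.Helper94_D1.D1a
import Pool.Agent.Helper51_D1.Cbd
import Pool.Agent.Helper51_D1.Cld
import Pool.Agent.Helper11_D1.Und
import Pool.Agent.Helper90_D1.Chd
import Pool.Agent.Helper26_D1.Ebv
import Pool.Agent.Helper26_D1.Mcd
import Pool.Agent.Helper39_D1.Fex
import Pool.Agent.Helper91_D1.Fr1
import Pool.Agent.Helper91_D1.Rsd
import Pool.Agent.Helper21_D1.Frw
import Pool.Agent.Helper21_D1.Wgt
import Pool.Agent.Helper46_D1.Ind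
import Pool.Agent.Helper9_D1.Inv
import Pool.Agent.Helper65_D1.Ird
import Pool.Agent.Helper2_D1.Key
import Pool.Agent.Helper66_D1.Lft
import Pool.Agent.Helper66_D1.Spd
import Pool.Agent.Helper71_D1.Soc
import Pool.Agent.Helper67_D1.Sud
import Pool.Agent.Helper13_D1.C3D
import Pool.Agent.Helper76_D1.C4d
import Pool.Agent.Helper6_D1.Ebd
import Pool.Agent.Helper6_D1.Ced
import Pool.Agent.Helper96_BN.Bcq
import Pool.Agent.Helper75_CY.Fre
import Pool.Agent.Helper96_PP.Asm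

/-!
# Part D1: the assembly
-/

noncomputable section

namespace Pool.Agent.PP.D66A

open Pool.Agent.PP

theorem mcd_ : McdStmt := D1.H26.mcd D1H21.frw

theorem wgt_ : WgtStmt := D1H21.wgt D1H21.frw

theorem lft_ : LftdStmt := D66.lft D1.H26.ebv

theorem spd_ : SpdStmt := D66.spd D1.H26.ebv

theorem fex_ : FexStmt := D1.H39.fex lft_ spd_ mcd_ wgt_

theorem key_ : KeyStmt := D1.H2.key fex_ D1.H71.soc

theorem ind_ : IndStmt := H46.ind H20.ibc D1.H71.soc key_

theorem und_ : UndStmt := D1H11.und H20.ibc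

theorem sud_ : SudStmt := D1.H67.sud D1.H26.ebv key_ H20.eig

theorem cld_ : CldStmt := D1H51.cld D1.H9.inv

theorem chd_ : ChdStmt := D1.H90.chd H94.nch H20.nls H20.brm

theorem cmq_ : CmqStmt := BN.H96.cmq Pool.Agent.PP.H96.cl_

theorem fr1_ : Fr1Stmt := D1.H91.fr1 wgt_ CY.H75.fre

theorem ird_ : IrdStmt := D1.H65.ird key_ fr1_ D1.H71.soc

theorem ebd_ : EbdStmt := D1H6.ebd D1.H26.ebv

theorem cbd_ : CbdStmt :=
  D1H51.cbd cmq_ ird_ ind_ und_ ebd_ sud_ D1.H91.rsd D1.H13.c3d D1.H76.c4d H20.eig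

theorem ced_ : CedStmt := D1H6.ced cbd_ ird_ ind_ ebd_

theorem ccd_ : CcdStmt := D1H11.ccd ced_ chd_

theorem d1r_ : D1rStmt := D1H94.d1r ccd_ cld_

theorem d1a_ : D1aStmt := D1H94.d1a d1r_

/-- the theorem on blocks of relative defect one -/
theorem fd1_ : Fd1Stmt := D1.H27.fd1 d1a_ D1.H9.inv

end Pool.Agent.PP.D66A
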