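import Pool.Agent.Helper66_BN.Stmts
import Pool.Agent.Helper36_PP.StmtsCY

/-!
# Squad PP, part D1: blocks of relative defect one

Text: `AWC_D1.md`.  `N` is a normal subgroup of `G`, `b` a `G`-stable block idempotent of `F N` with
defect group `P` of order `ℓ`, `L = N_G(P)`, `N₁ = N ∩ L`.  The simple modules `V` of `G` over `b`
correspond to the simple modules `V^P / (∑ P) V` of `L` over `br_P b`.
-/

open scoped BigOperators

noncomputable section

namespace Pool.Agent.PP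

open Pool.Agent.Helper51_AWC Pool.Agent.Helper79_WRA

section defs

variable {F : Type} [Field F] {G : Type} [Group G] {V V' : Type} [AddCommGroup V] [Module F V]
  [AddCommGroup V'] [Module F V']

/-- `c` is a system of weights for the cosets of `P` in `N`: `c` vanishes outside `N` and the sum
over each coset `g P`, `g ∈ N`, is one (for example the characteristic function of a transversal).
-/
structure IsW (N P : Subgroup G) (c : G → F) : Prop where
  supp : ∀ g, g ∉ N → c g = 0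
  sum : ∀ g ∈ N, ∑ᶠ p : P, c (g * p) = 1

/-- The sum of the conjugates of `φ` with weights `c`: if `φ` commutes with `P` and `c` is a system
of weights for `N` and `P`, this is the relative trace of `φ` from `P` to `N`. -/
def trW (c : G → F) (ρ : Representation F G V) (ρ' : Representation F G V') (φ : V →ₗ[F] V') :
    V →ₗ[F] V' := ∑ᶠ g : G, c g • (ρ' g ∘ₗ φ ∘ₗ ρ g⁻¹)

/-- the action of an element of the group ring -/
def evV (ρ : Representation F G V) (a : G → F) : V →ₗ[F] V := ∑ᶠ g : G, a g • ρ g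

/-- `a` is the relative trace from `P` to `N` of an element `z` of the group ring of `N` which
commutes with `P`. -/
def PrjB (N P : Subgroup G) (a : G → F) : Prop :=
  ∃ c z : G → F, IsW N P c ∧ (∀ x, x ∉ N → z x = 0) ∧ (∀ p ∈ P, ∀ x, z (p * x * p⁻¹) = z x) ∧
    ∀ y, a y = ∑ᶠ g : G, c g * z (g⁻¹ * y * g)

/-- `Stb N W`: the subspace `W` is stable under `N` -/
def Stb (N : Subgroup G) (ρ : Representation F G V) (W : Submodule F V) : Prop :=
  ∀ n ∈ N, ∀ v ∈ W, ρ n v ∈ W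

/-- every proper `N`-stable subspace misses some minimal `N`-stable subspace (`V` is a semisimple
`N`-module) -/
def NSoc (N : Subgroup G) (ρ : Representation F G V) : Prop :=
  ∀ W : Submodule F V, Stb N ρ W → W ≠ ⊤ → ∃ S : Submodule F V, Stb N ρ S ∧
    (∀ S' : Submodule F V, Stb N ρ S' → S' ≤ S → S' = ⊥ ∨ S' = S) ∧ ¬ S ≤ W

/-- `π` induces an isomorphism of `V^P / (∑ P) V` with the representation `κ` of `A`, where `A` acts
on `V` by way of `j : A → G`. -/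
structure HV {A : Type} [Group A] (j : A →* G) (P : Subgroup G) {m : ℕ}
    (κ : A →* Matrix (Fin m) (Fin m) F) (ρ : Representation F G V) (π : V →ₗ[F] (Fin m → F)) :
    Prop where
  int : ∀ (x : A), ∀ v ∈ fixV ρ P, π (ρ (j x) v) = (κ x).mulVec (π v)
  ker : ∀ v ∈ fixV ρ P, (π v = 0 ↔ v ∈ nrmV ρ P)
  sur : ∀ w, ∃ v ∈ fixV ρ P, π v = w

/-- The situation: `N` is normal in `G`, `P ≤ N` is a group of order `ℓ`, `b` is a central
idempotent of `F G` supported on `N`. -/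
structure D1S (ℓ : ℕ) (N P : Subgroup G) (b : G → F) : Prop where
  normal : N.Normal
  card : Nat.card P = ℓ
  le : P ≤ N
  idem : IsIdem b
  supp : ∀ x, x ∉ N → b x = 0
  frat : N ⊔ Subgroup.normalizer (P : Set G) = ⊤
  prj : PrjB N P b
  prj1 : PrjB (N ⊓ Subgroup.normalizer (P : Set G)) P (br P b)
  npj : ∀ (k : ℕ) (τ : N →* Matrix (Fin k) (Fin k) F), IsIrr τ → ev τ (fun t : N => b t) = 1 →
    ∀ ψ : Matrix (Fin k) (Fin k) F, ∑ᶠ n : N, τ n * ψ * τ n⁻¹ ≠ 1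

/-- The Brauer maps of `b` at the nontrivial `ℓ`-subgroups of `N` which are not conjugate to `P`
vanish. -/
def BrU (ℓ : ℕ) (N P : Subgroup G) (b : G → F) : Prop :=
  ∀ Q : Subgroup G, Q ≤ N → IsPGroup ℓ Q → br Q b ≠ 0 → Q = ⊥ ∨ ∃ g : G, Q = conjS g P

/-- `e` has defect at most one relative to `N`: `e` is below a central idempotent `a` of `F G`
supported on `N` whose Brauer maps at the `ℓ`-subgroups of `N` of order larger than `ℓ` vanish. -/
def DfO (ℓ : ℕ) (N : Subgroup G) (e : G → F) : Prop :=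
  ∃ a : G → F, IsIdem a ∧ (∀ x, x ∉ N → a x = 0) ∧ mulF e a = e ∧
    ∀ Q : Subgroup G, Q ≤ N → IsPGroup ℓ Q → br Q a ≠ 0 → Nat.card Q ≤ ℓ

/-- the inclusion of `N ∩ L` (as a subgroup of `L`) into `N` -/
def jN (N L : Subgroup G) : N.subgroupOf L →* N where
  toFun a := ⟨((a : L) : G), a.2⟩
  map_one' := rfl
  map_mul' _ _ := rfl

/-- The correspondence between the irreducible modular characters `φ` of `N` and `θ` of
`N ∩ N_G(P)`. -/
def CorD (N P : Subgroup G) (φ : N → F)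
    (θ : N.subgroupOf (Subgroup.normalizer (P : Set G)) → F) : Prop :=
  ∃ (n : ℕ) (σ : N →* Matrix (Fin n) (Fin n) F) (m : ℕ)
    (κ : N.subgroupOf (Subgroup.normalizer (P : Set G)) →* Matrix (Fin m) (Fin m) F)
    (π : (Fin n → F) →ₗ[F] (Fin m → F)), IsIrr σ ∧ tr σ = φ ∧ IsIrr κ ∧ tr κ = θ ∧
      HV (jN N (Subgroup.normalizer (P : Set G))) (P.subgroupOf N) κ (mrep σ) π

end defs

/-! ## Linear algebra of weights -/

/-- FRW: a free action has a system of weights. -/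
def FrwStmt : Prop := ∀ (F : Type) [Field F] (K Ω : Type) [Group K] [Finite K] [Finite Ω]
  [MulAction K Ω] (S : Set Ω), (∀ (k : K), ∀ ω ∈ S, k • ω ∈ S) →
  (∀ (k : K), ∀ ω ∈ S, k • ω = ω → k = 1) →
  ∃ d : Ω → F, (∀ ω, ω ∉ S → d ω = 0) ∧ ∀ ω ∈ S, ∑ᶠ k : K, d (k • ω) = 1

/-- WGT: weights exist; the relative trace is a homomorphism for `N` and does not depend on the
weights; transitivity. -/
def WgtStmt : Prop := ∀ (F : Type) [Field F] (G : Type) [Group G] [Finite G] (N P : Subgroup G),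
  P ≤ N → (∃ c : G → F, IsW N P c) ∧
  ∀ (V V' : Type) [AddCommGroup V] [Module F V] [AddCommGroup V'] [Module F V']
    (ρ : Representation F G V) (ρ' : Representation F G V') (c : G → F), IsW N P c →
  (∀ (φ : V →ₗ[F] V'), HomOn P ρ ρ' φ → HomOn N ρ ρ' (trW c ρ ρ' φ) ∧
    ∀ c' : G → F, IsW N P c' → trW c' ρ ρ' φ = trW c ρ ρ' φ) ∧
  ∀ ψ : V →ₗ[F] V', trW c ρ ρ' (trP ρ ρ' P ψ) = ∑ᶠ n : N, ρ' n ∘ₗ ψ ∘ₗ ρ (n : G)⁻¹

/-- MAC: the relative trace from `P` to `N` is the relative trace from `P` to `N ∩ N_G(P)` plus a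
trace from `1` to `P`. -/
def McdStmt : Prop := ∀ (ℓ : ℕ) [Fact ℓ.Prime] (F : Type) [Field F] (G : Type) [Group G] [Finite G]
  (N P : Subgroup G), P ≤ N → Nat.card P = ℓ →
  ∀ (V V' : Type) [AddCommGroup V] [Module F V] [AddCommGroup V'] [Module F V']
    (ρ : Representation F G V) (ρ' : Representation F G V') (c c₁ : G → F), IsW N P c →
  IsW (N ⊓ Subgroup.normalizer (P : Set G)) P c₁ → ∀ φ : V →ₗ[F] V', HomOn P ρ ρ' φ →
  ∃ ψ : V →ₗ[F] V', trW c ρ ρ' φ = trW c₁ ρ ρ' φ + trP ρ ρ' P ψ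

/-- EBV: a class function acts on `V^P / (∑ P) V` like its image under the Brauer map. -/
def EbvStmt : Prop := ∀ (ℓ : ℕ) [Fact ℓ.Prime] (F : Type) [Field F] (G : Type) [Group G] [Finite G]
  (P : Subgroup G), Nat.card P = ℓ → ∀ (V : Type) [AddCommGroup V] [Module F V]
  (ρ : Representation F G V) (a : G → F), (∀ p ∈ P, ∀ x, a (p * x * p⁻¹) = a x) →
  ∀ v ∈ fixV ρ P, evV ρ a v - evV ρ (br P a) v ∈ nrmV ρ P

/-! ## The endomorphism -/

/-- LFT: lifting of a simple submodule. -/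
def LftdStmt : Prop := ∀ (ℓ : ℕ) [Fact ℓ.Prime] (F : Type) [Field F], GoodF ℓ F → ∀ (G : Type)
  [Group G] [Finite G] (N P : Subgroup G) (b : G → F), D1S ℓ N P b →
  ∀ (V : Type) [AddCommGroup V] [Module F V] [FiniteDimensional F V] (ρ : Representation F G V),
  (∀ v, evV ρ b v = v) → ∀ Y : Submodule F V, nrmV ρ P < Y → Y ≤ fixV ρ P →
  Stb (N ⊓ Subgroup.normalizer (P : Set G)) ρ Y →
  ∃ T : Submodule F V, T ≠ ⊥ ∧ T ≤ Y ∧ T ⊓ nrmV ρ P = ⊥ ∧
    Stb (N ⊓ Subgroup.normalizer (P : Set G)) ρ T ∧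
    ∀ T' : Submodule F V, Stb (N ⊓ Subgroup.normalizer (P : Set G)) ρ T' → T' ≤ T →
      T' = ⊥ ∨ T' = T

/-- SPD: the endomorphism for `N ∩ N_G(P)`. -/
def SpdStmt : Prop := ∀ (ℓ : ℕ) [Fact ℓ.Prime] (F : Type) [Field F], GoodF ℓ F → ∀ (G : Type)
  [Group G] [Finite G] (N P : Subgroup G) (b : G → F), D1S ℓ N P b →
  ∀ (V : Type) [AddCommGroup V] [Module F V] [FiniteDimensional F V] (ρ : Representation F G V),
  (∀ v, evV ρ b v = v) → ∀ T : Submodule F V, T ≤ fixV ρ P → T ⊓ nrmV ρ P = ⊥ →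
  Stb (N ⊓ Subgroup.normalizer (P : Set G)) ρ T →
  (∀ T' : Submodule F V, Stb (N ⊓ Subgroup.normalizer (P : Set G)) ρ T' → T' ≤ T →
    T' = ⊥ ∨ T' = T) →
  ∃ (g₀ : V →ₗ[F] V) (c₁ : G → F), HomOn P ρ ρ g₀ ∧
    IsW (N ⊓ Subgroup.normalizer (P : Set G)) P c₁ ∧
    (∀ v ∈ fixV ρ P, trW c₁ ρ ρ g₀ v ∈ T) ∧ ∀ t ∈ T, trW c₁ ρ ρ g₀ t = t

/-- FEX: an endomorphism of the `N`-module `V` which is not zero and maps `V^P` into `Y`. -/
def FexStmt : Prop := ∀ (ℓ : ℕ) [Fact ℓ.Prime] (F : Type) [Field F], GoodF ℓ F → ∀ (G : Type)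
  [Group G] [Finite G] (N P : Subgroup G) (b : G → F), D1S ℓ N P b →
  ∀ (V : Type) [AddCommGroup V] [Module F V] [FiniteDimensional F V] (ρ : Representation F G V),
  (∀ v, evV ρ b v = v) → ∀ Y : Submodule F V, nrmV ρ P < Y → Y ≤ fixV ρ P →
  Stb (N ⊓ Subgroup.normalizer (P : Set G)) ρ Y →
  ∃ f : V →ₗ[F] V, HomOn N ρ ρ f ∧ f ≠ 0 ∧ ∀ v ∈ fixV ρ P, f v ∈ Y

/-! ## Semisimple modules -/

/-- SOC: irreducible representations of `G` are semisimple for `N`; sums; complements. -/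
def SocStmt : Prop := ∀ (F : Type) [Field F] (G : Type) [Group G] [Finite G] (N : Subgroup G),
  N.Normal →
  (∀ (n : ℕ) (σ : G →* Matrix (Fin n) (Fin n) F), IsIrr σ → NSoc N (mrep σ)) ∧
  (∀ (V V' : Type) [AddCommGroup V] [Module F V] [AddCommGroup V'] [Module F V']
    (ρ : Representation F G V) (ρ' : Representation F G V'), NSoc N ρ → NSoc N ρ' →
    NSoc N (ρ.prod ρ')) ∧
  ∀ (V : Type) [AddCommGroup V] [Module F V] [FiniteDimensional F V] (ρ : Representation F G V),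
    NSoc N ρ → ∀ W : Submodule F V, Stb N ρ W → ∃ C : Submodule F V, Stb N ρ C ∧ IsCompl W C

/-- KEY: a submodule of `V^P` for `N_G(P)`, larger than the norm, contains `Z^P` for a nonzero
`G`-submodule `Z` of `V`. -/
def KeyStmt : Prop := ∀ (ℓ : ℕ) [Fact ℓ.Prime] (F : Type) [Field F], GoodF ℓ F → ∀ (G : Type)
  [Group G] [Finite G] (N P : Subgroup G) (b : G → F), D1S ℓ N P b →
  ∀ (V : Type) [AddCommGroup V] [Module F V] [FiniteDimensional F V] (ρ : Representation F G V),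
  (∀ v, evV ρ b v = v) → NSoc N ρ → ∀ Y : Submodule F V, nrmV ρ P < Y → Y ≤ fixV ρ P →
  Stb (Subgroup.normalizer (P : Set G)) ρ Y →
  ∃ Z : Submodule F V, Z ≠ ⊥ ∧ Stb ⊤ ρ Z ∧ Z ⊓ fixV ρ P ≤ Y

/-- FR1: the fixed points are not contained in the norm. -/
def Fr1Stmt : Prop := ∀ (ℓ : ℕ) [Fact ℓ.Prime] (F : Type) [Field F], GoodF ℓ F → ∀ (G : Type)
  [Group G] [Finite G] (N P : Subgroup G) (b : G → F), D1S ℓ N P b →
  ∀ (n : ℕ) (σ : G →* Matrix (Fin n) (Fin n) F), IsIrr σ → ev σ b = 1 →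
  nrmV (mrep σ) P < fixV (mrep σ) P

/-! ## The correspondence -/

/-- IRD: `V^P / (∑ P) V` is irreducible. -/
def IrdStmt : Prop := ∀ (ℓ : ℕ) [Fact ℓ.Prime] (F : Type) [Field F], GoodF ℓ F → ∀ (G : Type)
  [Group G] [Finite G] (N P : Subgroup G) (b : G → F), D1S ℓ N P b → ∀ (A : Type) [Group A]
  [Finite A] (j : A →* G), j.range = Subgroup.normalizer (P : Set G) →
  ∀ (n : ℕ) (σ : G →* Matrix (Fin n) (Fin n) F), IsIrr σ → ev σ b = 1 →
  ∃ (m : ℕ) (κ : A →* Matrix (Fin m) (Fin m) F) (π : (Fin n → F) →ₗ[F] (Fin m → F)),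
    IsIrr κ ∧ HV j P κ (mrep σ) π

/-- IND: `V^P / (∑ P) V` determines `V`. -/
def IndStmt : Prop := ∀ (ℓ : ℕ) [Fact ℓ.Prime] (F : Type) [Field F], GoodF ℓ F → ∀ (G : Type)
  [Group G] [Finite G] (N P : Subgroup G) (b : G → F), D1S ℓ N P b → ∀ (A : Type) [Group A]
  [Finite A] (j : A →* G), j.range = Subgroup.normalizer (P : Set G) →
  ∀ (n n' : ℕ) (σ : G →* Matrix (Fin n) (Fin n) F) (σ' : G →* Matrix (Fin n') (Fin n') F),
  IsIrr σ → IsIrr σ' → ev σ b = 1 → ev σ' b = 1 →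
  ∀ (m m' : ℕ) (κ : A →* Matrix (Fin m) (Fin m) F) (κ' : A →* Matrix (Fin m') (Fin m') F)
    (π : (Fin n → F) →ₗ[F] (Fin m → F)) (π' : (Fin n' → F) →ₗ[F] (Fin m' → F)), IsIrr κ →
  IsIrr κ' → tr κ = tr κ' → HV j P κ (mrep σ) π → HV j P κ' (mrep σ') π' → tr σ = tr σ'

/-- UND: `V` determines the character of `V^P / (∑ P) V`. -/
def UndStmt : Prop := ∀ (ℓ : ℕ) (F : Type) [Field F], GoodF ℓ F → ∀ (G : Type) [Group G] [Finite G]
  (P : Subgroup G) (A : Type) [Group A] [Finite A] (j : A →* G),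
  j.range = Subgroup.normalizer (P : Set G) →
  ∀ (n n' : ℕ) (σ : G →* Matrix (Fin n) (Fin n) F) (σ' : G →* Matrix (Fin n') (Fin n') F),
  IsIrr σ → IsIrr σ' → tr σ = tr σ' →
  ∀ (m m' : ℕ) (κ : A →* Matrix (Fin m) (Fin m) F) (κ' : A →* Matrix (Fin m') (Fin m') F)
    (π : (Fin n → F) →ₗ[F] (Fin m → F)) (π' : (Fin n' → F) →ₗ[F] (Fin m' → F)), IsIrr κ →
  IsIrr κ' → HV j P κ (mrep σ) π → HV j P κ' (mrep σ') π' → tr κ = tr κ'

/-- EBD: a class function acts on `V^P / (∑ P) V` like its image under the Brauer map. -/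
def EbdStmt : Prop := ∀ (ℓ : ℕ) [Fact ℓ.Prime] (F : Type) [Field F], GoodF ℓ F → ∀ (G : Type)
  [Group G] [Finite G] (P : Subgroup G), Nat.card P = ℓ → ∀ (A : Type) [Group A] [Finite A]
  (j : A →* G), Function.Injective j → j.range = Subgroup.normalizer (P : Set G) →
  ∀ (n : ℕ) (σ : G →* Matrix (Fin n) (Fin n) F) (m : ℕ) (κ : A →* Matrix (Fin m) (Fin m) F)
    (π : (Fin n → F) →ₗ[F] (Fin m → F)), IsIrr κ → HV j P κ (mrep σ) π →
  ∀ (a : G → F) (c : F), IsCl a → ev σ a = Matrix.scalar (Fin n) c →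
  ev κ (fun t : A => br P a (j t)) = Matrix.scalar (Fin m) c

/-- SUD: every irreducible representation of `N_G(P)` over `br_P b` occurs (for `N = G`). -/
def SudStmt : Prop := ∀ (ℓ : ℕ) [Fact ℓ.Prime] (F : Type) [Field F], GoodF ℓ F → ∀ (G : Type)
  [Group G] [Finite G] (P : Subgroup G) (b : G → F), D1S ℓ (⊤ : Subgroup G) P b → ∀ (A : Type)
  [Group A] [Finite A] (j : A →* G), Function.Injective j →
  j.range = Subgroup.normalizer (P : Set G) →
  ∀ (m : ℕ) (κ : A →* Matrix (Fin m) (Fin m) F), IsIrr κ →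
  ev κ (fun t : A => br P b (j t)) = 1 →
  ∃ (n : ℕ) (σ : G →* Matrix (Fin n) (Fin n) F) (π : (Fin n → F) →ₗ[F] (Fin m → F)),
    IsIrr σ ∧ ev σ b = 1 ∧ HV j P κ (mrep σ) π

/-- RSD: restriction to `N`. -/
def RsdStmt : Prop := ∀ (ℓ : ℕ) [Fact ℓ.Prime] (F : Type) [Field F] (G : Type) [Group G] [Finite G]
  (N P : Subgroup G) (b : G → F), D1S ℓ N P b →
  D1S ℓ (⊤ : Subgroup N) (P.subgroupOf N) (fun t : N => b t) ∧
    (jN N (Subgroup.normalizer (P : Set G))).range =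
      Subgroup.normalizer ((P.subgroupOf N : Subgroup N) : Set N)

/-- C3D: the correspondence is equivariant. -/
def C3dStmt : Prop := ∀ (F : Type) [Field F] (G : Type) [Group G] [Finite G] (N P : Subgroup G)
  [N.Normal], P ≤ N → ∀ (φ : N → F) (θ : N.subgroupOf (Subgroup.normalizer (P : Set G)) → F),
  CorD N P φ θ → ∀ x : Subgroup.normalizer (P : Set G),
    CorD N P (fun l => φ (MulAut.conjNormal (x : G) l)) (fun l => θ (MulAut.conjNormal x l))

/-- C4D: the scalars of the counting lemma agree. -/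
def C4dStmt : Prop := ∀ (ℓ : ℕ) [Fact ℓ.Prime] (F : Type) [Field F], GoodF ℓ F →
  ∀ (G : Type) [Group G] [Finite G] (N P : Subgroup G) [N.Normal], P ≤ N →
  ∀ (φ : N → F) (θ : N.subgroupOf (Subgroup.normalizer (P : Set G)) → F), CorD N P φ θ →
  ∀ x y : Subgroup.normalizer (P : Set G),
    x * y * x⁻¹ * y⁻¹ ∈ N.subgroupOf (Subgroup.normalizer (P : Set G)) →
    (∀ l, φ (MulAut.conjNormal (x : G) l) = φ l) → (∀ l, φ (MulAut.conjNormal (y : G) l) = φ l) →
    (∀ l, θ (MulAut.conjNormal x l) = θ l) → (∀ l, θ (MulAut.conjNormal y l) = θ l) →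
    tc N φ (x : G) (y : G) = tc (N.subgroupOf (Subgroup.normalizer (P : Set G))) θ x y

/-! ## The count -/

/-- CBD: the numbers of irreducible modular characters over `b` and over `br_P b` agree. -/
def CbdStmt : Prop := ∀ (ℓ : ℕ) [Fact ℓ.Prime] (F : Type) [Field F], GoodF ℓ F → ∀ (G : Type)
  [Group G] [Finite G] (N P : Subgroup G) (b : G → F), D1S ℓ N P b →
  {θ : G → F | θ ∈ IBr F G ∧ actF b θ = θ}.ncard =
    {θ : Subgroup.normalizer (P : Set G) → F | θ ∈ IBr F (Subgroup.normalizer (P : Set G)) ∧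
      actF (fun t : Subgroup.normalizer (P : Set G) => br P b t) θ = θ}.ncard

/-- CED: the same for a central idempotent `e` below `b`. -/
def CedStmt : Prop := ∀ (ℓ : ℕ) [Fact ℓ.Prime] (F : Type) [Field F], GoodF ℓ F → ∀ (G : Type)
  [Group G] [Finite G] (N P : Subgroup G) (b : G → F), D1S ℓ N P b → ∀ e : G → F, IsIdem e →
  mulF e b = e →
  {θ : G → F | θ ∈ IBr F G ∧ actF e θ = θ}.ncard =
    {θ : Subgroup.normalizer (P : Set G) → F | θ ∈ IBr F (Subgroup.normalizer (P : Set G)) ∧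
      actF (fun t : Subgroup.normalizer (P : Set G) => br P e t) θ = θ}.ncard

/-- CHD: the alternating sum has two terms. -/
def ChdStmt : Prop := ∀ (ℓ : ℕ) [Fact ℓ.Prime] (F : Type) [Field F], GoodF ℓ F → ∀ (G : Type)
  [Group G] [Finite G] (N P : Subgroup G) (b : G → F), D1S ℓ N P b → BrU ℓ N P b →
  ∀ e : G → F, IsIdem e → mulF e b = e →
  YY ℓ N e = (Nat.card G : ℤ) * ({θ : G → F | θ ∈ IBr F G ∧ actF e θ = θ}.ncard : ℤ) -
    (Nat.card G : ℤ) * ({θ : Subgroup.normalizer (P : Set G) → F |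
      θ ∈ IBr F (Subgroup.normalizer (P : Set G)) ∧
      actF (fun t : Subgroup.normalizer (P : Set G) => br P e t) θ = θ}.ncard : ℤ)

/-! ## The reduction -/

/-- CCD: the alternating sum vanishes for a central idempotent below `b`. -/
def CcdStmt : Prop := ∀ (ℓ : ℕ) [Fact ℓ.Prime] (F : Type) [Field F], GoodF ℓ F → ∀ (G : Type)
  [Group G] [Finite G] (N P : Subgroup G) (b : G → F), D1S ℓ N P b → BrU ℓ N P b →
  ∀ e : G → F, IsIdem e → mulF e b = e → YY ℓ N e = 0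

/-- INV: a central element which is not nilpotent under a block is invertible under the block. -/
def InvStmt : Prop := ∀ (ℓ : ℕ) (F : Type) [Field F], GoodF ℓ F → ∀ (H : Type) [Group H] [Finite H]
  (f z : H → F), IsBlk f → IsCl z → (∀ n : ℕ, (mulF z)^[n] f ≠ 0) →
  ∃ u : H → F, IsCl u ∧ mulF f (mulF z u) = f

/-- CLD: existence of the defect group of a block which is stable in `G`, not of defect zero and of
defect at most one. -/
def CldStmt : Prop := ∀ (ℓ : ℕ) [Fact ℓ.Prime] (F : Type) [Field F], GoodF ℓ F → ∀ (G : Type)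
  [Group G] [Finite G] (N : Subgroup G), N.Normal → ∀ b : G → F, IsCl b →
  (∀ x, x ∉ N → b x = 0) → IsBlk (fun t : N => b t) → ¬ DZ ℓ (fun t : N => b t) →
  (∀ Q : Subgroup G, Q ≤ N → IsPGroup ℓ Q → br Q b ≠ 0 → Nat.card Q ≤ ℓ) →
  ∃ P : Subgroup G, D1S ℓ N P b ∧ BrU ℓ N P b

/-- D1R: the relative theorem (from CCD and CLD, by ADD, IDM, FR, PS3). -/
def D1rStmt : Prop := ∀ (ℓ : ℕ) [Fact ℓ.Prime] (F : Type) [Field F], GoodF ℓ F → ∀ (G : Type)
  [Group G] [Finite G] (N : Subgroup G), N.Normal → ∀ e : G → F, IsIdem e → Pos ℓ e N →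
  DfO ℓ N e → YY ℓ N e = 0

/-- D1A: the absolute theorem (from D1R, like `rel` in `Helper94_PP/Rel.lean`). -/
def D1aStmt : Prop := ∀ (ℓ : ℕ) [Fact ℓ.Prime] (F : Type) [Field F], GoodF ℓ F → ∀ (G : Type)
  [Group G] [Finite G] (N : Subgroup G), N.Normal → ∀ e : G → F, IsIdem e → Pos ℓ e N →
  DfO ℓ N e → YY ℓ ⊤ e = 0

/-! ## The theorem in terms of ordinary characters -/

/-- The defect groups of the block of `ψ` have order at most `ℓ |O_ℓ(N)|`: there is a class of `N`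
whose central character value is not in `M` and whose centralisers have order not divisible by
`ℓ² |O_ℓ(N)|`. -/
def SmallDefect (ℓ : ℕ) (M : Ideal (integralClosure ℤ ℂ)) {N : Type} [Group N] (ψ : N → ℂ) :
    Prop :=
  ∃ x : N, red M (omega (MonoidHom.id N) ψ x) ≠ 0 ∧
    ¬ ℓ ^ 2 * Nat.card (opCore ℓ N) ∣ Nat.card (Subgroup.centralizer ({x} : Set N))

/-- FD1: the theorem on blocks of relative defect one. -/
def Fd1Stmt : Prop := ∀ (ℓ : ℕ), ℓ.Prime → ∀ (M : Ideal (integralClosure ℤ ℂ)) [M.IsMaximal],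
  (ℓ : integralClosure ℤ ℂ) ∈ M → ∀ (G : Type) [Group G] [Finite G],
  opCore ℓ G ≤ Subgroup.center G → ∀ N : Subgroup G, N.Normal →
  ∀ χ ∈ Irr G, ∀ ψ ∈ Irr N, (∑ᶠ n : N, χ n * starRingEnd ℂ (ψ n)) ≠ 0 → LargeDefect ℓ M ψ →
    SmallDefect ℓ M ψ → altSum ℓ M χ = 0

end Pool.Agent.PP
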